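import Pool.Agent.Y778.SL.Stm

/-! SL-SE: equality in `K₀` is stable equivalence of idempotent matrices -/

open Matrix

namespace Pool.Agent.Y563.SL

open Pool.Agent.Y778.NK Pool.Agent.Y778.SL

section

variable {B : Type} [Ring B] {ι κ μ ν : Type} [Fintype ι] [DecidableEq ι] [Fintype κ]
  [DecidableEq κ] [Fintype μ] [DecidableEq μ] [Fintype ν] [DecidableEq ν]

/-- equivalence of idempotent matrices -/
def Eqv (e : Matrix ι ι B) (f : Matrix κ κ B) : Prop :=
  ∃ (u : Matrix ι κ B) (v : Matrix κ ι B), u * v = e ∧ v * u = f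

theorem Eqv.refl {e : Matrix ι ι B} (he : e * e = e) : Eqv e e := ⟨e, e, he, he⟩

theorem Eqv.symm {e : Matrix ι ι B} {f : Matrix κ κ B} (h : Eqv e f) : Eqv f e := by
  obtain ⟨u, v, h1, h2⟩ := h
  exact ⟨v, u, h2, h1⟩

theorem Eqv.trans {e : Matrix ι ι B} {f : Matrix κ κ B} {g : Matrix μ μ B} (he : e * e = e)
    (hg : g * g = g) (h : Eqv e f) (h' : Eqv f g) : Eqv e g := by
  obtain ⟨u, v, h1, h2⟩ := h
  obtain ⟨u', v', h3, h4⟩ := h'
  refine ⟨u * u', v' * v, ?_, ?_⟩
  · calc u * u' * (v' * v) = u * (u' * v') * v := by simp only [Matrix.mul_assoc]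
      _ = (u * v) * (u * v) := by rw [h3, ← h2]; simp only [Matrix.mul_assoc]
      _ = e := by rw [h1, he]
  · calc v' * v * (u * u') = v' * (v * u) * u' := by simp only [Matrix.mul_assoc]
      _ = (v' * u') * (v' * u') := by rw [h2, ← h3]; simp only [Matrix.mul_assoc]
      _ = g := by rw [h4, hg]

theorem Eqv.of_equiv (σ : ι ≃ κ) {e : Matrix ι ι B} {f : Matrix κ κ B} (hf : f * f = f)
    (h : ∀ i j, e i j = f (σ i) (σ j)) : Eqv e f := by
  have h1 : e = f.submatrix σ σ := by
    ext i j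
    rw [h, Matrix.submatrix_apply]
  refine ⟨f.submatrix σ id, f.submatrix id σ, ?_, ?_⟩
  · rw [h1, Matrix.submatrix_mul (e₁ := σ) (e₂ := id) (e₃ := σ) f f Function.bijective_id |>.symm, hf]
  · have h2 := Matrix.submatrix_mul (e₁ := (id : κ → κ)) (e₂ := σ) (e₃ := (id : κ → κ)) f f σ.bijective
    rw [← h2, hf, Matrix.submatrix_id_id]

theorem Eqv.blocks {e : Matrix ι ι B} {f : Matrix κ κ B} {e' : Matrix μ μ B} {f' : Matrix ν ν B}
    (h : Eqv e e') (h' : Eqv f f') : Eqv (fromBlocks e 0 0 f) (fromBlocks e' 0 0 f') := by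
  obtain ⟨u, v, h1, h2⟩ := h
  obtain ⟨u', v', h3, h4⟩ := h'
  refine ⟨fromBlocks u 0 0 u', fromBlocks v 0 0 v', ?_, ?_⟩
  · rw [fromBlocks_multiply, h1, h3]; simp
  · rw [fromBlocks_multiply, h2, h4]; simp

end

variable (B : Type) [Ring B]

/-- idempotent matrices up to equivalence -/
def setd : Setoid (Σ n : ℕ, IdMat B n) where
  r x y := Eqv (x.2 : Matrix (Fin x.1) (Fin x.1) B) (y.2 : Matrix (Fin y.1) (Fin y.1) B)
  iseqv := ⟨fun x => Eqv.refl x.2.2, fun h => h.symm, fun {x _ z} h h' =>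
    Eqv.trans x.2.2 z.2.2 h h'⟩

/-- the monoid of equivalence classes -/
abbrev V : Type := Quotient (setd B)

variable {B}

/-- the class of an idempotent matrix over an arbitrary index type -/
noncomputable def cls {ι : Type} [Fintype ι] [DecidableEq ι] (e : Matrix ι ι B) (he : e * e = e) :
    V B :=
  Quotient.mk (setd B) ⟨Fintype.card ι, ⟨Matrix.reindex (Fintype.equivFin ι) (Fintype.equivFin ι) e,
    reindex_idem _ he⟩⟩

theorem eqv_reindex {ι : Type} [Fintype ι] [DecidableEq ι] {κ : Type} [Fintype κ] [DecidableEq κ]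
    (σ : ι ≃ κ) {e : Matrix ι ι B} (he : e * e = e) : Eqv e (Matrix.reindex σ σ e) := by
  apply Eqv.of_equiv σ (reindex_idem σ he)
  intro i j
  simp

theorem cls_eq {ι : Type} [Fintype ι] [DecidableEq ι] {κ : Type} [Fintype κ] [DecidableEq κ]
    {e : Matrix ι ι B} (he : e * e = e) {f : Matrix κ κ B} (hf : f * f = f) :
    cls e he = cls f hf ↔ Eqv e f := by
  have h1 := eqv_reindex (Fintype.equivFin ι) he
  have h2 := eqv_reindex (Fintype.equivFin κ) hf
  have hi1 := reindex_idem (Fintype.equivFin ι) he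
  have hi2 := reindex_idem (Fintype.equivFin κ) hf
  unfold cls
  rw [Quotient.eq]
  constructor
  · intro h
    have h' : Eqv (Matrix.reindex (Fintype.equivFin ι) (Fintype.equivFin ι) e)
      (Matrix.reindex (Fintype.equivFin κ) (Fintype.equivFin κ) f) := h
    exact h1.trans he hf (h'.trans hi1 hf h2.symm)
  · intro h
    show Eqv (Matrix.reindex (Fintype.equivFin ι) (Fintype.equivFin ι) e)
      (Matrix.reindex (Fintype.equivFin κ) (Fintype.equivFin κ) f)
    exact h1.symm.trans hi1 hi2 (h.trans he hi2 h2)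

theorem mk_eq_cls (x : Σ n : ℕ, IdMat B n) :
    Quotient.mk (setd B) x = cls (x.2 : Matrix (Fin x.1) (Fin x.1) B) x.2.2 := by
  unfold cls
  rw [Quotient.eq]
  exact eqv_reindex _ x.2.2

theorem V_ind {P : V B → Prop}
    (h : ∀ (n : ℕ) (e : Matrix (Fin n) (Fin n) B) (he : e * e = e), P (cls e he)) (x : V B) :
    P x := by
  induction x using Quotient.inductionOn with
  | h x => rw [mk_eq_cls]; exact h _ _ _

/-- the sum -/
noncomputable def vadd' : V B → V B → V B :=
  Quotient.map₂ (fun x y => (⟨x.1 + y.1, ⟨Matrix.reindex finSumFinEquiv finSumFinEquiv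
    (fromBlocks (x.2 : Matrix (Fin x.1) (Fin x.1) B) 0 0 (y.2 : Matrix (Fin y.1) (Fin y.1) B)),
      reindex_idem _ (blocks_idem x.2.2 y.2.2)⟩⟩ : Σ n : ℕ, IdMat B n)) (by
    intro x x' hx y y' hy
    have hx' : Eqv (x.2 : Matrix (Fin x.1) (Fin x.1) B) (x'.2 : Matrix (Fin x'.1) (Fin x'.1) B) := hx
    have hy' : Eqv (y.2 : Matrix (Fin y.1) (Fin y.1) B) (y'.2 : Matrix (Fin y'.1) (Fin y'.1) B) := hy
    have h1 := blocks_idem x.2.2 y.2.2
    have h2 := blocks_idem x'.2.2 y'.2.2
    show Eqv (Matrix.reindex finSumFinEquiv finSumFinEquiv _)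
      (Matrix.reindex finSumFinEquiv finSumFinEquiv _)
    exact (eqv_reindex _ h1).symm.trans (reindex_idem _ h1) (reindex_idem _ h2)
      ((hx'.blocks hy').trans h1 (reindex_idem _ h2) (eqv_reindex _ h2)))

theorem vadd_cls {ι : Type} [Fintype ι] [DecidableEq ι] {κ : Type} [Fintype κ] [DecidableEq κ]
    {e : Matrix ι ι B} (he : e * e = e) {f : Matrix κ κ B} (hf : f * f = f) :
    vadd' (cls e he) (cls f hf) = cls (fromBlocks e 0 0 f) (blocks_idem he hf) := by
  have h1 := reindex_idem (Fintype.equivFin ι) he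
  have h2 := reindex_idem (Fintype.equivFin κ) hf
  have h3 : vadd' (cls e he) (cls f hf) = Quotient.mk (setd B)
      ⟨_, ⟨Matrix.reindex finSumFinEquiv finSumFinEquiv
        (fromBlocks (Matrix.reindex (Fintype.equivFin ι) (Fintype.equivFin ι) e) 0 0
          (Matrix.reindex (Fintype.equivFin κ) (Fintype.equivFin κ) f)),
        reindex_idem _ (blocks_idem h1 h2)⟩⟩ := rfl
  rw [h3, mk_eq_cls, cls_eq]
  have h4 := blocks_idem h1 h2
  exact (eqv_reindex _ h4).symm.trans (reindex_idem _ h4) (blocks_idem he hf)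
    ((eqv_reindex (Fintype.equivFin ι) he).symm.blocks
      (eqv_reindex (Fintype.equivFin κ) hf).symm)

noncomputable instance : Zero (V B) := ⟨cls (0 : Matrix (Fin 0) (Fin 0) B) (mul_zero _)⟩

noncomputable instance : Add (V B) := ⟨vadd'⟩

noncomputable instance : AddCommMonoid (V B) where
  nsmul := nsmulRec
  add_assoc := by
    intro x y z
    induction x using V_ind with
    | h n e he =>
      induction y using V_ind with
      | h m f hf =>
        induction z using V_ind with
        | h k g hg =>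
          show vadd' (vadd' _ _) _ = vadd' _ (vadd' _ _)
          rw [vadd_cls, vadd_cls, vadd_cls, vadd_cls, cls_eq]
          apply Eqv.of_equiv (Equiv.sumAssoc _ _ _) (blocks_idem he (blocks_idem hf hg))
          rintro ((i | i) | i) ((j | j) | j) <;> rfl
  add_comm := by
    intro x y
    induction x using V_ind with
    | h n e he =>
      induction y using V_ind with
      | h m f hf =>
        show vadd' _ _ = vadd' _ _
        rw [vadd_cls, vadd_cls, cls_eq]
        apply Eqv.of_equiv (Equiv.sumComm _ _) (blocks_idem hf he)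
        rintro (i | i) (j | j) <;> rfl
  zero_add := by
    intro x
    induction x using V_ind with
    | h n e he =>
      show vadd' _ _ = _
      rw [show (0 : V B) = cls (0 : Matrix (Fin 0) (Fin 0) B) (mul_zero _) from rfl]
      rw [vadd_cls, cls_eq]
      apply Eqv.of_equiv (Equiv.emptySum (Fin 0) (Fin n)) he
      rintro (i | i) (j | j)
      · exact i.elim0
      · exact i.elim0
      · exact j.elim0
      · rfl
  add_zero := by
    intro x
    induction x using V_ind with
    | h n e he =>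
      show vadd' _ _ = _
      rw [show (0 : V B) = cls (0 : Matrix (Fin 0) (Fin 0) B) (mul_zero _) from rfl]
      rw [vadd_cls, cls_eq]
      apply Eqv.of_equiv (Equiv.sumEmpty (Fin n) (Fin 0)) he
      rintro (i | i) (j | j)
      · rfl
      · exact j.elim0
      · exact i.elim0
      · exact i.elim0

theorem cls_add {ι : Type} [Fintype ι] [DecidableEq ι] {κ : Type} [Fintype κ] [DecidableEq κ]
    {e : Matrix ι ι B} (he : e * e = e) {f : Matrix κ κ B} (hf : f * f = f) :
    cls e he + cls f hf = cls (fromBlocks e 0 0 f) (blocks_idem he hf) := vadd_cls he hf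

/-- the map from the free group -/
noncomputable def toG (B : Type) [Ring B] :
    FreeAbelianGroup (Σ n : ℕ, IdMat B n) →+ Algebra.GrothendieckAddGroup (V B) :=
  FreeAbelianGroup.lift fun x => Algebra.GrothendieckAddGroup.of
    (cls (x.2 : Matrix (Fin x.1) (Fin x.1) B) x.2.2)

theorem toG_rel : AddSubgroup.closure (K0Rel B) ≤ (toG B).ker := by
  rw [AddSubgroup.closure_le]
  rintro x (⟨m, n, e, f, d, hd, rfl⟩ | ⟨m, n, e, f, u, v, h1, h2, rfl⟩)
  · show toG B _ = 0
    rw [map_sub, map_add]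
    simp only [toG, FreeAbelianGroup.lift_apply_of]
    rw [← map_add, cls_add, sub_eq_zero]
    congr 1
    rw [cls_eq]
    have h3 := blocks_idem e.2 f.2
    rw [hd]
    exact (eqv_reindex finSumFinEquiv h3).symm
  · show toG B _ = 0
    rw [map_sub]
    simp only [toG, FreeAbelianGroup.lift_apply_of]
    rw [sub_eq_zero]
    congr 1
    rw [cls_eq]
    exact ⟨u, v, h1, h2⟩

theorem of_cl0 {ι : Type} [Fintype ι] [DecidableEq ι] {κ : Type} [Fintype κ] [DecidableEq κ]
    {e : Matrix ι ι B} (he : e * e = e) {f : Matrix κ κ B} (hf : f * f = f)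
    (h : cl0 e he = cl0 f hf) : ∃ c : V B, c + cls e he = c + cls f hf := by
  have h1 : toG B (FreeAbelianGroup.of ⟨_, ⟨_, reindex_idem (Fintype.equivFin ι) he⟩⟩) =
      toG B (FreeAbelianGroup.of ⟨_, ⟨_, reindex_idem (Fintype.equivFin κ) hf⟩⟩) := by
    have h2 := congrArg (QuotientAddGroup.lift (AddSubgroup.closure (K0Rel B)) (toG B) toG_rel) h
    exact h2
  simp only [toG, FreeAbelianGroup.lift_apply_of] at h1
  have h3 := (AddLocalization.addMonoidOf (⊤ : AddSubmonoid (V B))).eq_iff_exists.1 h1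
  obtain ⟨c, hc⟩ := h3
  refine ⟨c, ?_⟩
  have e1 : cls (Matrix.reindex (Fintype.equivFin ι) (Fintype.equivFin ι) e)
      (reindex_idem _ he) = cls e he := by
    rw [cls_eq]; exact (eqv_reindex _ he).symm
  have e2 : cls (Matrix.reindex (Fintype.equivFin κ) (Fintype.equivFin κ) f)
      (reindex_idem _ hf) = cls f hf := by
    rw [cls_eq]; exact (eqv_reindex _ hf).symm
  rw [← e1, ← e2]
  exact hc

theorem one_split {N : ℕ} {g : Matrix (Fin N) (Fin N) B} (hg : g * g = g) :
    ∃ hc : (1 - g) * (1 - g) = 1 - g,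
      cls (1 : Matrix (Fin N) (Fin N) B) (mul_one _) = cls g hg + cls (1 - g) hc := by
  have hc : (1 - g) * (1 - g) = 1 - g := by
    rw [sub_mul, one_mul, mul_sub, mul_one, hg, sub_self, sub_zero]
  refine ⟨hc, ?_⟩
  rw [cls_add, cls_eq]
  refine ⟨fromCols g (1 - g), fromRows g (1 - g), ?_, ?_⟩
  · rw [fromCols_mul_fromRows, hg, hc, add_sub_cancel]
  · rw [fromRows_mul_fromCols, hg, hc]
    have h1 : g * (1 - g) = 0 := by rw [mul_sub, mul_one, hg, sub_self]
    have h2 : (1 - g) * g = 0 := by rw [sub_mul, one_mul, hg, sub_self]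
    rw [h1, h2]

theorem se : S_SE := by
  intro B _ m n e he f hf h
  obtain ⟨c, hc⟩ := of_cl0 he hf h
  revert hc
  induction c using V_ind with
  | h N g hg =>
    intro hc
    obtain ⟨hc1, h1⟩ := one_split hg
    have h2 : cls e he + cls (1 : Matrix (Fin N) (Fin N) B) (mul_one _) =
        cls f hf + cls (1 : Matrix (Fin N) (Fin N) B) (mul_one _) := by
      rw [h1, ← add_assoc, ← add_assoc, add_comm (cls e he), add_comm (cls f hf), hc]
    rw [cls_add, cls_add, cls_eq] at h2
    obtain ⟨u, v, h3, h4⟩ := h2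
    exact ⟨N, u, v, h3, h4⟩

end Pool.Agent.Y563.SL
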