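import Pool.Agent.Y778.SL.Stm
import Pool.Agent.Y350.NK.Gen

/-! SL-TORS: lifted traces detect `K₀` of the group algebra of a finite abelian group -/

open Matrix

namespace Pool.Agent.Y563.SL.To

open MonoidAlgebra Pool.Agent.Y69 Pool.Agent.Y778.NK Pool.Agent.Y778.SL Pool.Agent.Y350.NK
open Pool.Agent.H23R2.Cyc (ell ell_single ell_mul_comm ell_eq_sum)

/-- injectivity of `K₀` for a quotient by a nilpotent ideal -/
theorem inj_of_nil (hN : S_Nil) {R S : Type} [CommRing R] [CommRing S] (θ : R →+* S)
    (hs : Function.Surjective θ) (hk : ∃ N : ℕ, RingHom.ker θ ^ N = ⊥) (x : K0 R)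
    (hx : K0.map θ x = 0) : x = 0 := by
  let ι : ∀ (A : Type) [CommRing A], A →+* MonoidAlgebra A Unit := fun A _ => singleOneRingHom
  let ε : MonoidAlgebra R Unit →+* R := (MonoidAlgebra.lift R R Unit (1 : Unit →* R)).toRingHom
  have h1 : ε.comp (ι R) = RingHom.id R := by
    ext r
    show (MonoidAlgebra.lift R R Unit (1 : Unit →* R)) (single 1 r) = r
    simp
  have h2 : (mapRingHom Unit θ).comp (ι R) = (ι S).comp θ := by
    ext r
    simp [ι]
  have h3 : K0.map (mapRingHom Unit θ) (K0.map (ι R) x) = 0 := by
    rw [K0map_comp, h2, ← K0map_comp, hx, map_zero]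
  have h4 : K0.map (ι R) x = 0 := (hN R S θ hs hk Unit).1 (by rw [h3, map_zero])
  have h5 : K0.map ε (K0.map (ι R) x) = x := by
    rw [K0map_comp, h1, K0map_id]
  rw [← h5, h4, map_zero]

/-- elements with coefficients in a nilpotent ideal are nilpotent -/
theorem nil_of_coeff {R S : Type} [CommRing R] [CommRing S] (θ : R →+* S)
    (hk : ∃ N : ℕ, RingHom.ker θ ^ N = ⊥) {C : Type} [CommGroup C] (x : MonoidAlgebra R C)
    (hx : mapRingHom C θ x = 0) : IsNilpotent x := by
  classical
  obtain ⟨N, hN⟩ := hk
  have h1 : ∀ c : C, x.coeff c ∈ RingHom.ker θ := by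
    intro c
    have := congrArg (fun y => y.coeff c) hx
    simpa [coeff_mapRingHom] using this
  have h2 : x = ∑ c ∈ x.coeff.support, single c (x.coeff c) := by
    apply MonoidAlgebra.coeff_injective
    ext c
    rw [MonoidAlgebra.coeff_sum, Finsupp.finset_sum_apply]
    by_cases hc : c ∈ x.coeff.support
    · rw [Finset.sum_eq_single c]
      · simp
      · intro b _ hb
        simp [hb]
      · intro h; exact absurd hc h
    · rw [Finsupp.notMem_support_iff.1 hc, Finset.sum_eq_zero]
      intro b hb
      have : b ≠ c := by rintro rfl; exact hc hb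
      simp [this]
  rw [← mem_nilradical, h2]
  apply Ideal.sum_mem
  intro c _
  rw [mem_nilradical]
  refine ⟨N, ?_⟩
  rw [single_pow]
  have h3 : x.coeff c ^ N = 0 := by
    have := Ideal.pow_mem_pow (h1 c) N
    rw [hN] at this
    exact this
  rw [h3, MonoidAlgebra.single_zero]

theorem torsF (hN : S_Nil) : S_TorsF := by
  intro k _ W _ θ hθ C _ _ u hu
  classical
  have hfin : Module.Finite k (MonoidAlgebra k C) := by
    infer_instance
  have hart : IsArtinianRing (MonoidAlgebra k C) := IsArtinianRing.of_finite k _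
  set A := MonoidAlgebra k C with hA
  set J := nilradical A with hJ
  have hJn : IsNilpotent J := IsArtinianRing.isNilpotent_nilradical
  let q : A →+* A ⧸ J := Ideal.Quotient.mk J
  have hq : Function.Surjective q := Ideal.Quotient.mk_surjective
  have hker : RingHom.ker q = J := Ideal.mk_ker
  have hred : IsReduced (A ⧸ J) := by
    rw [← Ideal.isRadical_iff_quotient_reduced]
    exact Ideal.radical_isRadical _
  have hss : IsSemisimpleRing (A ⧸ J) := IsArtinianRing.isSemisimpleRing_of_isReduced _
  obtain ⟨I, _, d, hd, hd0, hdo, h⟩ := K0_semisimple (A ⧸ J)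
  obtain ⟨n, hn⟩ := h (K0.map q u)
  -- lifts to `A`
  have hqn : ∀ x ∈ RingHom.ker q, IsNilpotent x := by
    intro x hx
    rw [hker] at hx
    exact mem_nilradical.1 hx
  have hl1 : ∀ i, ∃ e : A, IsIdempotentElem e ∧ q e = d i := fun i =>
    exists_isIdempotentElem_eq_of_ker_isNilpotent q hqn (d i) (hq (d i)) (hd i)
  choose e he hqe using hl1
  have hu1 : u = ∑ i, n i • cl1 (e i) (he i) := by
    rw [← sub_eq_zero]
    apply inj_of_nil hN q hq
    · obtain ⟨a, ha⟩ := hJn
      exact ⟨a, by rw [hker]; exact ha⟩
    · rw [map_sub, hn, map_sum, sub_eq_zero]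
      refine Finset.sum_congr rfl fun i _ => ?_
      rw [map_zsmul]
      congr 1
      unfold cl1
      rw [K0map_cl0]
      exact cl0_eq _ _ (by ext1 a b; exact (hqe i).symm)
  -- all coefficients vanish
  have hn0 : ∀ j, n j = 0 := by
    intro j
    by_contra hnj
    obtain ⟨m, hm⟩ := hθ.2 (n j) hnj
    obtain ⟨hs, hk⟩ := hθ.1 m
    have hsC : Function.Surjective (mapRingHom C (θ m)) := by
      intro y
      induction y using MonoidAlgebra.induction_on with
      | of c => exact ⟨MonoidAlgebra.of (W m) C c, by simp⟩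
      | add x y hx hy =>
        obtain ⟨a, rfl⟩ := hx
        obtain ⟨b, rfl⟩ := hy
        exact ⟨a + b, map_add _ _ _⟩
      | smul r x hx =>
        obtain ⟨a, rfl⟩ := hx
        obtain ⟨s, rfl⟩ := hs r
        refine ⟨s • a, ?_⟩
        ext c
        simp [coeff_mapRingHom]
    have hnilC : ∀ x ∈ RingHom.ker (mapRingHom C (θ m)), IsNilpotent x := fun x hx =>
      nil_of_coeff (θ m) hk x hx
    have hl2 : ∀ i, ∃ e' : MonoidAlgebra (W m) C, IsIdempotentElem e' ∧
        mapRingHom C (θ m) e' = e i := fun i =>
      exists_isIdempotentElem_eq_of_ker_isNilpotent _ hnilC (e i) (hsC (e i)) (he i)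
    choose e' he' hme using hl2
    have hv : K0.map (mapRingHom C (θ m)) (∑ i, n i • cl1 (e' i) (he' i)) = u := by
      rw [hu1, map_sum]
      refine Finset.sum_congr rfl fun i _ => ?_
      rw [map_zsmul]
      congr 1
      unfold cl1
      rw [K0map_cl0]
      exact cl0_eq _ _ (by ext1 a b; exact hme i)
    let _ := Fintype.ofFinite C
    have h2 : ∑ i, (n i : W m) • e' i = 0 := by
      apply MonoidAlgebra.coeff_injective
      ext c
      have h3 := hu m _ hv (fun g => if g = c then 1 else 0)
      rw [map_sum] at h3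
      have h4 : ∀ i, T (W m) (fun g : C => if g = c then (1 : ℤ) else 0)
          (n i • cl1 (e' i) (he' i)) = (n i : W m) * (e' i).coeff c := by
        intro i
        rw [map_zsmul, T_cl1, ell_eq_sum _ Finset.univ _ (fun g _ => Finset.mem_univ g),
          Finset.sum_eq_single c]
        · simp
        · intro b _ hb
          simp [hb]
        · intro h; exact absurd (Finset.mem_univ _) h
      rw [Finset.sum_congr rfl fun i _ => h4 i] at h3
      refine Eq.trans ?_ (h3.trans ?_)
      · simp [MonoidAlgebra.coeff_sum]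
      · rfl
    have horth : ∀ i, i ≠ j → e' i * e' j = 0 := by
      intro i hij
      have h5 : IsIdempotentElem (e' i * e' j) := by
        have h6 := he' i
        have h7 := he' j
        unfold IsIdempotentElem at h6 h7 ⊢
        calc e' i * e' j * (e' i * e' j) = (e' i * e' i) * (e' j * e' j) := by ring
          _ = e' i * e' j := by rw [h6, h7]
      have h6 : IsNilpotent (e' i * e' j) := by
        have h7 : q (mapRingHom C (θ m) (e' i * e' j)) = 0 := by
          rw [map_mul, hme, hme, map_mul, hqe, hqe, hdo i j hij]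
        have h8 : IsNilpotent (mapRingHom C (θ m) (e' i * e' j)) := hqn _ h7
        obtain ⟨a, ha⟩ := h8
        have h9 : IsNilpotent ((e' i * e' j) ^ a) := by
          apply hnilC
          rw [RingHom.mem_ker, map_pow, ha]
        obtain ⟨b, hb⟩ := h9
        exact ⟨a * b, by rw [pow_mul, hb]⟩
      obtain ⟨a, ha⟩ := h6
      rcases Nat.eq_zero_or_pos a with h0 | h0
      · rw [h0, pow_zero] at ha
        rw [← mul_one (e' i * e' j), ha, mul_zero]
      · rw [← h5.pow_succ_eq (a - 1), Nat.sub_add_cancel h0, ha]
    have h3 : (n j : W m) • e' j = 0 := by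
      have h4 := congrArg (fun z => z * e' j) h2
      simp only [zero_mul] at h4
      rw [Finset.sum_mul, Finset.sum_eq_single j] at h4
      · have h5 : e' j * e' j = e' j := he' j
        rwa [smul_mul_assoc, h5] at h4
      · intro i _ hij
        rw [smul_mul_assoc, horth i hij, smul_zero]
      · intro h; exact absurd (Finset.mem_univ _) h
    have h4 : e j ≠ 0 := by
      intro h0
      apply hd0 j
      rw [← hqe j, h0, map_zero]
    have h5 : ∃ c, (e j).coeff c ≠ 0 := by
      by_contra hcon
      push Not at hcon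
      apply h4
      apply MonoidAlgebra.coeff_injective
      ext c
      rw [hcon c]
      rfl
    obtain ⟨c, hc⟩ := h5
    have h6 : θ m ((e' j).coeff c) ≠ 0 := by
      rw [← coeff_mapRingHom, hme]
      exact hc
    apply hm _ h6
    have h7 := congrArg (fun y => y.coeff c) h3
    simpa using h7
  rw [hu1]
  apply Finset.sum_eq_zero
  intro i _
  rw [hn0 i, zero_smul]

end Pool.Agent.Y563.SL.To
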