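import Pool.Agent.Y778.SL.Stm

/-! SL-TRI and SL-SNF -/

open Matrix

namespace Pool.Agent.Y563.SL

open Pool.Agent.Y778.NK Pool.Agent.Y778.SL

theorem upper_pow {S : Type} [Ring S] {κ : Type} [Fintype κ] [DecidableEq κ] (a : κ → ℕ)
    (M : Matrix κ κ S) (h : ∀ x y, ¬ a x < a y → M x y = 0) (k : ℕ) :
    ∀ x y, a y < a x + k → (M ^ k) x y = 0 := by
  induction k with
  | zero =>
    intro x y hxy
    rw [pow_zero, Matrix.one_apply_ne]
    rintro rfl
    omega
  | succ k ih =>
    intro x y hxy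
    rw [pow_succ, Matrix.mul_apply]
    apply Finset.sum_eq_zero
    intro z _
    by_cases h1 : a z < a x + k
    · rw [ih x z h1, zero_mul]
    · rw [h z y (by omega), mul_zero]

theorem upper_nil {S : Type} [Ring S] {κ : Type} [Fintype κ] [DecidableEq κ] (a : κ → ℕ)
    (M : Matrix κ κ S) (h : ∀ x y, ¬ a x < a y → M x y = 0) : IsNilpotent M := by
  refine ⟨(Finset.univ.sup a) + 1, ?_⟩
  ext x y
  rw [upper_pow a M h _ x y, Matrix.zero_apply]
  have := Finset.le_sup (f := a) (Finset.mem_univ y)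
  omega

theorem tri : S_Tri := by
  intro S _ κ _ _ a E hE hup D hDE
  have hD1 : D * D = D := by
    ext x y
    rw [hDE x y, Matrix.mul_apply]
    by_cases hxy : a x = a y
    · rw [if_pos hxy]
      conv_rhs => rw [← hE, Matrix.mul_apply]
      apply Finset.sum_congr rfl
      intro z _
      rw [hDE x z, hDE z y]
      by_cases h1 : a x = a z
      · rw [if_pos h1, if_pos (h1.symm.trans hxy)]
      · rw [if_neg h1, zero_mul]
        rcases lt_or_gt_of_ne h1 with h2 | h2
        · rw [hup z y (by omega), mul_zero]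
        · rw [hup x z h2, zero_mul]
    · rw [if_neg hxy]
      apply Finset.sum_eq_zero
      intro z _
      rw [hDE x z, hDE z y]
      by_cases h1 : a x = a z
      · rw [if_neg (fun h2 => hxy (h1.trans h2)), mul_zero]
      · rw [if_neg h1, zero_mul]
  refine ⟨hD1, ?_⟩
  set u : Matrix κ κ S := E * D + (1 - E) * (1 - D) with hu
  have hEu : E * u = u * D := by
    have h1 : E * u = E * D := by
      rw [hu, mul_add, ← mul_assoc, hE, ← mul_assoc, mul_sub E 1 E, hE, mul_one, sub_self,
        zero_mul, add_zero]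
    have h2 : u * D = E * D := by
      rw [hu, add_mul, mul_assoc, hD1, mul_assoc, sub_mul 1 D D, hD1, one_mul, sub_self,
        mul_zero, add_zero]
    rw [h1, h2]
  have hunit : IsUnit u := by
    have h1 : u = 1 + (u - 1) := by abel
    rw [h1]
    apply IsNilpotent.isUnit_one_add
    apply upper_nil a
    -- `u - 1 = E D - E - D + E D`
    have h2 : u - 1 = (E * D - E) + (E * D - D) := by
      rw [hu]
      noncomm_ring
    have hN : ∀ x y, ¬ a x < a y → (E - D) x y = 0 := by
      intro x y hxy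
      rw [Matrix.sub_apply, hDE x y]
      by_cases h3 : a x = a y
      · rw [if_pos h3, sub_self]
      · rw [if_neg h3, hup x y (by omega), sub_zero]
    have h3 : u - 1 = (E - D) * D - E * (E - D) := by
      rw [h2, sub_mul, mul_sub, hE, hD1]
      noncomm_ring
    intro x y hxy
    rw [h3, Matrix.sub_apply, Matrix.mul_apply, Matrix.mul_apply]
    rw [Finset.sum_eq_zero, Finset.sum_eq_zero, sub_zero]
    · intro z _
      by_cases h4 : a z < a y
      · rw [hup x z (by omega), zero_mul]
      · rw [hN z y h4, mul_zero]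
    · intro z _
      by_cases h4 : a x < a z
      · have h5 : D z y = 0 := by rw [hDE, if_neg (by omega)]
        rw [h5, mul_zero]
      · rw [hN x z h4, zero_mul]
  obtain ⟨U, hU⟩ := hunit
  apply cl0_conj hD1 hE (U : Matrix κ κ S) ((U⁻¹ : (Matrix κ κ S)ˣ) : Matrix κ κ S)
  · exact U.inv_mul
  · rw [hU, ← hEu, mul_assoc, ← hU, U.mul_inv, mul_one]

theorem snf : S_SNF := by
  intro X Y _ _ _ _ P Q δ hδ hPQ hQP
  have hinj : ∀ {A B : Type} [Fintype A] [DecidableEq A] [Fintype B] [DecidableEq B]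
      (M : Matrix A B ℤ) (M' : Matrix B A ℤ), M' * M = (δ : Matrix B B ℤ) →
      Function.Injective M.mulVecLin := by
    intro A B _ _ _ _ M M' h
    rw [← LinearMap.ker_eq_bot, LinearMap.ker_eq_bot']
    intro v hv
    have h1 : M' *ᵥ (M *ᵥ v) = 0 := by
      have : M *ᵥ v = 0 := hv
      rw [this, Matrix.mulVec_zero]
    rw [Matrix.mulVec_mulVec, h, Matrix.natCast_mulVec] at h1
    have hδ' : (δ : ℤ) ≠ 0 := by exact_mod_cast hδ.ne'
    ext i
    have h2 := congrFun h1 i
    simp only [Pi.smul_apply, Pi.zero_apply, nsmul_eq_mul, zsmul_eq_mul, smul_eq_mul] at h2 ⊢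
    rcases mul_eq_zero.1 h2 with h3 | h3
    · exact absurd (by exact_mod_cast h3) hδ'
    · exact h3
  have hP := hinj P Q hQP
  have hQ := hinj Q P hPQ
  have hr : Module.finrank ℤ (LinearMap.range P.mulVecLin) = Module.finrank ℤ (X → ℤ) := by
    rw [LinearMap.finrank_range_of_inj hP]
    exact le_antisymm (LinearMap.finrank_le_finrank_of_injective hP)
      (LinearMap.finrank_le_finrank_of_injective hQ)
  obtain ⟨b, d, n, hn⟩ := Submodule.exists_smith_normal_form_of_rank_eq (Pi.basisFun ℤ X) hr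
  let φ : (Y → ℤ) ≃ₗ[ℤ] LinearMap.range P.mulVecLin := LinearEquiv.ofInjective _ hP
  let c : Module.Basis X ℤ (Y → ℤ) := n.map φ.symm
  have hc : ∀ z, P *ᵥ (c z) = d z • b z := by
    intro z
    rw [← hn z]
    have h1 : (φ (c z) : X → ℤ) = P *ᵥ (c z) := rfl
    rw [← h1]
    show ((φ (φ.symm (n z)) : LinearMap.range P.mulVecLin) : X → ℤ) = _
    rw [LinearEquiv.apply_symm_apply]
  have hd : ∀ z, d z ≠ 0 := by
    intro z h0
    have h1 := hc z
    rw [h0, zero_smul] at h1
    have h2 : c z = 0 := hP (by rw [map_zero]; exact h1)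
    exact c.ne_zero z h2
  refine ⟨X, inferInstance, inferInstance, (Pi.basisFun ℤ X).toMatrix b,
    b.toMatrix (Pi.basisFun ℤ X), c.toMatrix (Pi.basisFun ℤ Y), (Pi.basisFun ℤ Y).toMatrix c, d,
    Module.Basis.toMatrix_mul_toMatrix_flip _ _, Module.Basis.toMatrix_mul_toMatrix_flip _ _,
    Module.Basis.toMatrix_mul_toMatrix_flip _ _, Module.Basis.toMatrix_mul_toMatrix_flip _ _,
    hd, ?_⟩
  have h1 : P * (Pi.basisFun ℤ Y).toMatrix c = (Pi.basisFun ℤ X).toMatrix b * Matrix.diagonal d := by
    ext x z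
    rw [Matrix.mul_diagonal, Matrix.mul_apply]
    have h2 := congrFun (hc z) x
    rw [Matrix.mulVec, dotProduct] at h2
    simp only [Module.Basis.toMatrix_apply, Pi.basisFun_repr]
    rw [h2, Pi.smul_apply, smul_eq_mul, mul_comm]
  rw [← h1, Matrix.mul_assoc, Module.Basis.toMatrix_mul_toMatrix_flip, Matrix.mul_one]

end Pool.Agent.Y563.SL
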